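import Mathlib

/-!
Smooth choices of residue classes: the geometry of coincidences.
-/

set_option autoImplicit false

open Finset

namespace Pool.Agent.Zk41.SN

/-- the data: `b p` is near `φ p`, and `φ` is nearly linear on intervals of length `H` -/
structure Dat (P M lam : ℝ) (K H : ℕ) (Q : Finset ℕ) (b : ℕ → ℤ) (φ d : ℝ → ℝ) : Prop where
  hM : 1 ≤ M
  hK : 100 * M ≤ K
  hKP : (K : ℝ) ≤ P
  hH1 : 1 ≤ H
  hHK : H ≤ K
  hl0 : 0 ≤ lam
  hl1 : lam * (H : ℝ) ^ 2 ≤ M
  hl2 : lam * P ≤ M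
  hQ : ∀ p ∈ Q, P ≤ (p : ℝ) ∧ (p : ℝ) ≤ 2 * P
  lip : ∀ s ∈ Set.Icc P (2 * P), ∀ t ∈ Set.Icc P (2 * P), |φ s - φ t| ≤ M * |s - t|
  lin : ∀ r ∈ Set.Icc P (2 * P), ∀ s ∈ Set.Icc P (2 * P), ∀ t ∈ Set.Icc P (2 * P),
    |φ s - φ t - d r * (s - t)| ≤ lam * (|s - t| + |r - t|) * |s - t|
  near : ∀ p ∈ Q, |(b p : ℝ) - φ p| ≤ M

variable {P M lam : ℝ} {K H : ℕ} {Q : Finset ℕ} {b : ℕ → ℤ} {φ d : ℝ → ℝ}

lemma Dat.b_lip (h : Dat P M lam K H Q b φ d) {p u : ℕ} (hp : p ∈ Q) (hq : p + u ∈ Q)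
    (hu : 1 ≤ u) : |(b (p + u) : ℝ) - b p| ≤ 3 * M * u := by
  have h1 := h.near p hp
  have h2 := h.near (p + u) hq
  have h3 := h.lip (((p + u : ℕ) : ℕ) : ℝ) (h.hQ _ hq) (p : ℝ) (h.hQ _ hp)
  have hM := h.hM
  have hu1 : (1 : ℝ) ≤ u := by exact_mod_cast hu
  have e : (((p + u : ℕ) : ℕ) : ℝ) - p = u := by push_cast; ring
  rw [e, abs_of_nonneg (by linarith : (0 : ℝ) ≤ u)] at h3
  have h4 : M ≤ M * u := le_mul_of_one_le_right (by linarith) hu1
  rw [abs_le] at h1 h2 h3 ⊢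
  constructor <;> linarith [h1.1, h1.2, h2.1, h2.2, h3.1, h3.2]

lemma Dat.b_any (h : Dat P M lam K H Q b φ d) {p q : ℕ} (hp : p ∈ Q) (hq : q ∈ Q) :
    |(b p : ℝ) - b q| ≤ 3 * M * P := by
  have hM := h.hM
  have hQp := h.hQ p hp
  have hQq := h.hQ q hq
  have hP : 0 ≤ P := by
    by_contra hc
    push Not at hc
    linarith [hQp.1, hQp.2]
  rcases lt_trichotomy p q with h1 | h1 | h1
  · obtain ⟨u, rfl⟩ : ∃ u, q = p + u := ⟨q - p, by omega⟩
    have h2 := h.b_lip hp hq (by omega)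
    rw [abs_sub_comm]
    refine h2.trans ?_
    have h3 : (u : ℝ) ≤ P := by
      have := hQq.2
      push_cast at this
      linarith [hQp.1]
    gcongr
  · subst h1
    rw [sub_self, abs_zero]
    positivity
  · obtain ⟨u, rfl⟩ : ∃ u, p = q + u := ⟨p - q, by omega⟩
    have h2 := h.b_lip hq hp (by omega)
    refine h2.trans ?_
    have h3 : (u : ℝ) ≤ P := by
      have := hQp.2
      push_cast at this
      linarith [hQq.1]
    gcongr

lemma Dat.mono (h : Dat P M lam K H Q b φ d) {p q k : ℕ} (hk : K ≤ k) (hp : p ∈ Q) (hq : q ∈ Q)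
    (hpq : p < q) : b p + (k : ℤ) * p < b q + (k : ℤ) * q := by
  obtain ⟨u, rfl⟩ : ∃ u, q = p + u := ⟨q - p, by omega⟩
  have h1 := (abs_le.1 (h.b_lip hp hq (by omega))).1
  have hK := h.hK
  have hM := h.hM
  have hkR : (K : ℝ) ≤ k := by exact_mod_cast hk
  have hu1 : (1 : ℝ) ≤ u := by exact_mod_cast (by omega : 1 ≤ u)
  have h2 : (b p : ℝ) + k * p < b (p + u) + k * ((p : ℝ) + u) := by
    have h3 : 3 * M * u < k * u := by
      apply mul_lt_mul_of_pos_right _ (by linarith)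
      linarith
    have e : (k : ℝ) * ((p : ℝ) + u) = k * p + k * u := by ring
    rw [e]
    linarith
  have h4 : ((b p + (k : ℤ) * p : ℤ) : ℝ) < ((b (p + u) + (k : ℤ) * ((p + u : ℕ) : ℤ) : ℤ) : ℝ) := by
    push_cast
    exact h2
  exact_mod_cast h4

/-- projection to the interval `[P, 2 P]` -/
noncomputable def cl (P x : ℝ) : ℝ := max P (min x (2 * P))

lemma cl_mem {x : ℝ} (hP : 0 ≤ P) : cl P x ∈ Set.Icc P (2 * P) :=
  ⟨le_max_left _ _, max_le (by linarith) (min_le_right _ _)⟩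

lemma cl_near {x y : ℝ} (hy : y ∈ Set.Icc P (2 * P)) : |cl P x - y| ≤ |x - y| := by
  obtain ⟨h1, h2⟩ := hy
  unfold cl
  rcases le_total x (2 * P) with h3 | h3
  · rw [min_eq_left h3]
    rcases le_total P x with h4 | h4
    · rw [max_eq_right h4]
    · rw [max_eq_left h4]
      rw [abs_of_nonpos (by linarith), abs_of_nonpos (by linarith)]
      linarith
  · rw [min_eq_right h3, max_eq_right (by linarith)]
    rw [abs_of_nonneg (by linarith), abs_of_nonneg (by linarith)]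
    linarith

/-- the predicted value of `k u - l v` -/
noncomputable def W (P : ℝ) (K : ℕ) (d : ℝ → ℝ) (j u v : ℕ) : ℝ :=
  d (cl P (cl P ((j : ℝ) * K) * v / u)) * v - d (cl P ((j : ℝ) * K)) * u

theorem Dat.key (h : Dat P M lam K H Q b φ d) {k l p q u q' j : ℕ} (hk : K ≤ k) (hk2 : k < 2 * K)
    (hl : K ≤ l) (hp : p ∈ Q) (hp' : p + u ∈ Q) (hq : q ∈ Q) (hq' : q' ∈ Q)
    (hpj : p / H = j) (hpj' : (p + u) / H = j) (hu : 1 ≤ u)
    (e : b p + (k : ℤ) * p = b q + (l : ℤ) * q)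
    (e' : b (p + u) + (k : ℤ) * ((p + u : ℕ) : ℤ) = b q' + (l : ℤ) * q') :
    ∃ v : ℕ, 1 ≤ v ∧ v ≤ 3 * H ∧ u < H ∧ |((k : ℝ) * u - l * v) - W P H d j u v| ≤ 108 * M ^ 2 := by
  have hM := h.hM
  have hK := h.hK
  have hKP := h.hKP
  have hK0 : 0 < K := by
    have : (0 : ℝ) < K := by linarith
    exact_mod_cast this
  have hKR : (0 : ℝ) < K := by exact_mod_cast hK0
  have hH0 : 0 < H := h.hH1
  have hHR : (0 : ℝ) < H := by exact_mod_cast hH0
  have hHK : (H : ℝ) ≤ K := by exact_mod_cast h.hHK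
  have hP : 0 < P := by linarith
  have hqq : q < q' := by
    by_contra hc
    push Not at hc
    have h1 := h.mono hk hp hp' (by omega)
    have h2 : b q' + (l : ℤ) * q' ≤ b q + (l : ℤ) * q := by
      rcases hc.eq_or_lt with h3 | h3
      · rw [h3]
      · exact (h.mono hl hq' hq h3).le
    rw [← e, ← e'] at h2
    omega
  obtain ⟨v, rfl⟩ : ∃ v, q' = q + v := ⟨q' - q, by omega⟩
  have hv : 1 ≤ v := by omega
  have huR : (1 : ℝ) ≤ u := by exact_mod_cast hu
  have hvR : (1 : ℝ) ≤ v := by exact_mod_cast hv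
  have hkR : (K : ℝ) ≤ k := by exact_mod_cast hk
  have hk2R : (k : ℝ) ≤ 2 * K := by exact_mod_cast hk2.le
  have hlR : (K : ℝ) ≤ l := by exact_mod_cast hl
  -- `u < H`
  have hp1 : j * H ≤ p := by rw [← hpj]; exact Nat.div_mul_le_self _ _
  have hp2 : p + u < (j + 1) * H := by
    rw [← hpj', mul_comm]
    exact Nat.lt_mul_div_succ _ hH0
  have huK : u < H := by
    have : (j + 1) * H = j * H + H := by ring
    omega
  have huKR : (u : ℝ) ≤ H := by exact_mod_cast huK.le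
  have hb1 := h.b_lip hp hp' hu
  have hb2 := h.b_lip hq hq' hv
  -- the equation
  have eR : (b p : ℝ) + k * p = b q + l * q := by exact_mod_cast e
  have eR' : (b (p + u) : ℝ) + k * ((p : ℝ) + u) = b (q + v) + l * ((q : ℝ) + v) := by
    have h1 : ((b (p + u) + (k : ℤ) * ((p + u : ℕ) : ℤ) : ℤ) : ℝ) =
        ((b (q + v) + (l : ℤ) * ((q + v : ℕ) : ℤ) : ℤ) : ℝ) := by rw [e']
    push_cast at h1
    exact h1
  have e2 : (k : ℝ) * u - l * v = ((b (q + v) : ℝ) - b q) - ((b (p + u) : ℝ) - b p) := by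
    linarith
  -- `v ≤ 3 u`
  have hv3 : (v : ℝ) ≤ 3 * u := by
    have h1 : (l : ℝ) * v ≤ k * u + 3 * M * v + 3 * M * u := by
      have a1 := (abs_le.1 hb1).2
      have a2 := (abs_le.1 hb2).1
      linarith
    have h2 : (K : ℝ) * v ≤ l * v := by gcongr
    have h3 : (k : ℝ) * u ≤ 2 * K * u := by gcongr
    by_contra hc
    push Not at hc
    have h4 : (K - 3 * M) * (3 * u) < (K - 3 * M) * v := by
      apply mul_lt_mul_of_pos_left hc
      linarith
    have h5 : 12 * M * u ≤ K * u := by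
      apply mul_le_mul_of_nonneg_right _ (by linarith)
      linarith
    nlinarith
  have hvK : v ≤ 3 * H := by
    have : (v : ℝ) ≤ ((3 * H : ℕ) : ℝ) := by push_cast; linarith
    exact_mod_cast this
  refine ⟨v, hv, hvK, huK, ?_⟩
  have hPp := h.hQ p hp
  have hPq := h.hQ q hq
  have hPp' := h.hQ _ hp'
  have hPq' := h.hQ _ hq'
  -- base points
  set c : ℝ := cl P ((j : ℝ) * H) with hc
  set r : ℝ := cl P (c * v / u) with hr
  have hcm : c ∈ Set.Icc P (2 * P) := cl_mem hP.le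
  have hrm : r ∈ Set.Icc P (2 * P) := cl_mem hP.le
  have hcp : |c - p| ≤ H := by
    refine (cl_near hPp).trans ?_
    have h1 : ((j : ℝ) * H) ≤ p := by exact_mod_cast hp1
    have h2 : (p : ℝ) ≤ (j : ℝ) * H + H := by
      have : p ≤ j * H + H := by
        have : (j + 1) * H = j * H + H := by ring
        omega
      exact_mod_cast this
    rw [abs_le]
    constructor <;> linarith
  -- the first difference
  have E1 : |((b (p + u) : ℝ) - b p) - d c * u| ≤ 4 * M := by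
    have h1 := h.lin c hcm (((p + u : ℕ) : ℕ) : ℝ) hPp' (p : ℝ) hPp
    have e3 : (((p + u : ℕ) : ℕ) : ℝ) - p = u := by push_cast; ring
    rw [e3, abs_of_nonneg (by linarith : (0 : ℝ) ≤ u)] at h1
    have h2 : lam * ((u : ℝ) + |c - p|) * u ≤ 2 * M := by
      calc lam * ((u : ℝ) + |c - p|) * u ≤ lam * ((H : ℝ) + H) * H := by
            have := h.hl0
            gcongr
        _ = 2 * (lam * (H : ℝ) ^ 2) := by ring
        _ ≤ 2 * M := by linarith [h.hl1]
    have h3 := h.near p hp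
    have h4 := h.near _ hp'
    have h5 := h1.trans h2
    rw [abs_le] at h3 h4 h5 ⊢
    constructor <;> linarith [h3.1, h3.2, h4.1, h4.2, h5.1, h5.2]
  -- the position of `q`
  have E0 : |(l : ℝ) * v - k * u| ≤ 12 * M * u := by
    have h1 : 3 * M * v ≤ 9 * M * u := by nlinarith
    rw [abs_le] at hb1 hb2 ⊢
    constructor <;> linarith [hb1.1, hb1.2, hb2.1, hb2.2]
  have Eq : |(p : ℝ) * v - q * u| ≤ 27 * M * P * u / K := by
    rw [le_div_iff₀ hKR]
    have h1 : (l : ℝ) * ((p : ℝ) * v - q * u) = p * (l * v - k * u) - u * (b p - b q) := by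
      have : (l : ℝ) * q = b p + k * p - b q := by linarith
      calc (l : ℝ) * ((p : ℝ) * v - q * u) = p * (l * v) - u * (l * q) := by ring
        _ = _ := by rw [this]; ring
    have h2 : |(l : ℝ) * ((p : ℝ) * v - q * u)| ≤ 27 * M * P * u := by
      rw [h1]
      refine (abs_sub _ _).trans ?_
      rw [abs_mul, abs_mul, abs_of_nonneg (by linarith : (0 : ℝ) ≤ p),
        abs_of_nonneg (by linarith : (0 : ℝ) ≤ u)]
      have h3 := h.b_any hp hq
      have h4 : (p : ℝ) * |(l : ℝ) * v - k * u| ≤ 2 * P * (12 * M * u) := by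
        apply mul_le_mul hPp.2 E0 (abs_nonneg _) (by linarith)
      have h5 : (u : ℝ) * |(b p : ℝ) - b q| ≤ u * (3 * M * P) := by gcongr
      nlinarith
    rw [abs_mul, abs_of_nonneg (by linarith : (0 : ℝ) ≤ l)] at h2
    calc |(p : ℝ) * v - q * u| * K ≤ |(p : ℝ) * v - q * u| * l := by gcongr
      _ = l * |(p : ℝ) * v - q * u| := by ring
      _ ≤ _ := h2
  have hrq : |r - q| ≤ 3 * H + 27 * M * P / K := by
    refine (cl_near hPq).trans ?_
    have hu0 : (0 : ℝ) < u := by linarith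
    have e4 : c * v / u - q = (c - p) * (v / u) + (p * v - q * u) / u := by
      field_simp
      ring
    rw [e4]
    refine (abs_add_le _ _).trans (add_le_add ?_ ?_)
    · rw [abs_mul]
      have h1 : |(v : ℝ) / u| ≤ 3 := by
        rw [abs_of_nonneg (by positivity), div_le_iff₀ hu0]
        linarith
      calc |c - p| * |(v : ℝ) / u| ≤ H * 3 := by gcongr
        _ = 3 * H := by ring
    · rw [abs_div, abs_of_pos hu0, div_le_iff₀ hu0]
      refine Eq.trans (le_of_eq ?_)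
      ring
  -- the second difference
  have E2 : |((b (q + v) : ℝ) - b q) - d r * v| ≤ 2 * M + 18 * M + 81 * M ^ 2 := by
    have h1 := h.lin r hrm (((q + v : ℕ) : ℕ) : ℝ) hPq' (q : ℝ) hPq
    have e3 : (((q + v : ℕ) : ℕ) : ℝ) - q = v := by push_cast; ring
    rw [e3, abs_of_nonneg (by linarith : (0 : ℝ) ≤ v)] at h1
    have hvKR : (v : ℝ) ≤ 3 * H := by linarith
    have h2 : lam * ((v : ℝ) + |r - q|) * v ≤ 18 * M + 81 * M ^ 2 := by
      calc lam * ((v : ℝ) + |r - q|) * v ≤ lam * (3 * (H : ℝ) + (3 * H + 27 * M * P / K)) * (3 * H) := by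
            have := h.hl0
            gcongr
        _ = 18 * (lam * (H : ℝ) ^ 2) + 81 * M * (lam * P) * (H / K) := by
            field_simp
            ring
        _ ≤ 18 * M + 81 * M * M * 1 := by
            have a1 := h.hl1
            have a2 := h.hl2
            have a3 : (H : ℝ) / K ≤ 1 := by rw [div_le_one hKR]; exact hHK
            have a4 : 0 ≤ lam * P := mul_nonneg h.hl0 hP.le
            gcongr
        _ = _ := by ring
    have h3 := h.near q hq
    have h4 := h.near _ hq'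
    have h5 := h1.trans h2
    rw [abs_le] at h3 h4 h5 ⊢
    constructor <;> linarith [h3.1, h3.2, h4.1, h4.2, h5.1, h5.2]
  have e5 : ((k : ℝ) * u - l * v) - W P H d j u v =
      (((b (q + v) : ℝ) - b q) - d r * v) - (((b (p + u) : ℝ) - b p) - d c * u) := by
    rw [e2]
    unfold W
    rw [← hc, ← hr]
    ring
  rw [e5]
  refine (abs_sub _ _).trans ?_
  have hM2 : M ≤ M ^ 2 := by nlinarith
  linarith

end Pool.Agent.Zk41.SN
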