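import Pool.Agent.Zk41.SN.A

/-!
Smooth choices of residue classes: the number of coincidences.
-/

set_option autoImplicit false

open Finset

namespace Pool.Agent.Zk41.SN

variable {P M lam : ℝ} {K H : ℕ} {Q : Finset ℕ} {b : ℕ → ℤ} {φ d : ℝ → ℝ}

/-- the elements `p` of the `j`-th block with `b p + k p = b q + l q` for some `q` -/
def blk (H : ℕ) (Q : Finset ℕ) (b : ℕ → ℤ) (j k l : ℕ) : Finset ℕ :=
  Q.filter (fun p => p / H = j ∧ ∃ q ∈ Q, b p + (k : ℤ) * p = b q + (l : ℤ) * q)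

theorem Dat.block (h : Dat P M lam K H Q b φ d) {k l j : ℕ} (hk : K ≤ k) (hk2 : k < 2 * K)
    (hl : K ≤ l) :
    ((blk H Q b j k l).card : ℝ) ≤ 1 + ∑ u ∈ Icc 1 H, ∑ v ∈ Icc 1 (3 * H),
      (if |((k : ℝ) * u - (l : ℝ) * v) - W P H d j u v| ≤ 108 * M ^ 2 then (H : ℝ) / u else 0) := by
  classical
  have hM := h.hM
  have hK := h.hK
  have hK0 : 0 < K := by
    have : (0 : ℝ) < K := by linarith
    exact_mod_cast this
  have hH0 : 0 < H := h.hH1
  set S := blk H Q b j k l with hS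
  have hmem : ∀ p ∈ S, p ∈ Q ∧ p / H = j ∧ ∃ q ∈ Q, b p + (k : ℤ) * p = b q + (l : ℤ) * q := by
    intro p hp
    rw [hS, blk, mem_filter] at hp
    exact hp
  have hpos : ∀ u ∈ Icc 1 H, 0 ≤ ∑ v ∈ Icc 1 (3 * H),
      (if |((k : ℝ) * u - (l : ℝ) * v) - W P H d j u v| ≤ 108 * M ^ 2 then (H : ℝ) / u else 0) := by
    intro u _
    refine sum_nonneg fun v _ => ?_
    split_ifs <;> positivity
  have hkey : ∀ p u : ℕ, 1 ≤ u → p ∈ S → p + u ∈ S → ∃ v : ℕ, 1 ≤ v ∧ v ≤ 3 * H ∧ u < H ∧
      |((k : ℝ) * u - l * v) - W P H d j u v| ≤ 108 * M ^ 2 := by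
    intro p u hu h1 h2
    obtain ⟨a1, a2, q, a3, a4⟩ := hmem p h1
    obtain ⟨b1, b2, q', b3, b4⟩ := hmem _ h2
    exact h.key hk hk2 hl a1 b1 a3 b3 a2 b2 hu a4 b4
  set E := (Icc 1 H).filter (fun u => ∃ p ∈ S, p + u ∈ S) with hE
  rcases E.eq_empty_or_nonempty with hE0 | hE0
  · have h1 : S.card ≤ 1 := by
      rw [card_le_one]
      intro p hp q hq
      by_contra hpq
      rcases Nat.lt_or_gt_of_ne hpq with h3 | h3
      · obtain ⟨v, _, _, h4, _⟩ := hkey p (q - p) (by omega) hp (by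
          rw [show p + (q - p) = q by omega]; exact hq)
        have : q - p ∈ E := by
          rw [hE, mem_filter, mem_Icc]
          exact ⟨⟨by omega, by omega⟩, p, hp, by rw [show p + (q - p) = q by omega]; exact hq⟩
        rw [hE0] at this
        exact absurd this (notMem_empty _)
      · obtain ⟨v, _, _, h4, _⟩ := hkey q (p - q) (by omega) hq (by
          rw [show q + (p - q) = p by omega]; exact hp)
        have : p - q ∈ E := by
          rw [hE, mem_filter, mem_Icc]
          exact ⟨⟨by omega, by omega⟩, q, hq, by rw [show q + (p - q) = p by omega]; exact hp⟩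
        rw [hE0] at this
        exact absurd this (notMem_empty _)
    have h2 : (S.card : ℝ) ≤ 1 := by exact_mod_cast h1
    have h3 := sum_nonneg hpos
    linarith
  · set u := E.min' hE0 with hu
    have huE : u ∈ E := min'_mem _ _
    have huE' := huE
    rw [hE, mem_filter, mem_Icc] at huE'
    obtain ⟨⟨hu1, huK⟩, p, hp, hpu⟩ := huE'
    obtain ⟨v, hv1, hv2, _, hv3⟩ := hkey p u hu1 hp hpu
    have hmin : ∀ p q : ℕ, p ∈ S → q ∈ S → p < q → u ≤ q - p := by
      intro p q hp hq hpq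
      have hq' : p + (q - p) ∈ S := by rw [show p + (q - p) = q by omega]; exact hq
      obtain ⟨_, _, _, h4, _⟩ := hkey p (q - p) (by omega) hp hq'
      apply min'_le
      rw [hE, mem_filter, mem_Icc]
      exact ⟨⟨by omega, by omega⟩, p, hp, hq'⟩
    have hjK : ∀ p ∈ S, j * H ≤ p ∧ p < j * H + H := by
      intro p hp
      have h1 := (hmem p hp).2.1
      constructor
      · rw [← h1]; exact Nat.div_mul_le_self _ _
      · have h2 := Nat.lt_mul_div_succ p hH0
        rw [h1, mul_comm, Nat.add_mul, one_mul] at h2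
        exact h2
    have hcard : S.card ≤ H / u + 1 := by
      have h1 : S.card ≤ (range (H / u + 1)).card := by
        apply card_le_card_of_injOn (fun p => (p - j * H) / u)
        · intro p hp
          have h2 := hjK p hp
          rw [coe_range, Set.mem_Iio, Nat.lt_add_one_iff]
          exact Nat.div_le_div_right (by omega)
        · intro p hp q hq hpq
          by_contra hne
          simp only at hpq
          have a1 := hjK p hp
          have a2 := hjK q hq
          rcases Nat.lt_or_gt_of_ne hne with h3 | h3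
          · have h4 := hmin p q hp hq h3
            have h5 : (p - j * H) / u + 1 ≤ (q - j * H) / u := by
              rw [← Nat.add_div_right _ (by omega : 0 < u)]
              exact Nat.div_le_div_right (by omega)
            omega
          · have h4 := hmin q p hq hp h3
            have h5 : (q - j * H) / u + 1 ≤ (p - j * H) / u := by
              rw [← Nat.add_div_right _ (by omega : 0 < u)]
              exact Nat.div_le_div_right (by omega)
            omega
      rwa [card_range] at h1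
    have hc2 : (S.card : ℝ) ≤ (H : ℝ) / u + 1 := by
      have h1 : (S.card : ℝ) ≤ ((H / u : ℕ) : ℝ) + 1 := by exact_mod_cast hcard
      have h2 : ((H / u : ℕ) : ℝ) ≤ (H : ℝ) / u := Nat.cast_div_le
      linarith
    have h5 : (H : ℝ) / u ≤ ∑ u ∈ Icc 1 H, ∑ v ∈ Icc 1 (3 * H),
      (if |((k : ℝ) * u - (l : ℝ) * v) - W P H d j u v| ≤ 108 * M ^ 2 then (H : ℝ) / u else 0) := by
      refine le_trans ?_ (single_le_sum hpos (mem_Icc.2 ⟨hu1, huK⟩))
      refine le_trans ?_ (single_le_sum (fun v _ => ?_) (mem_Icc.2 ⟨hv1, hv2⟩))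
      · rw [if_pos hv3]
      · split_ifs <;> positivity
    linarith

/-- the coincidences -/
def coin (K : ℕ) (Q : Finset ℕ) (b : ℕ → ℤ) : Finset ((ℕ × ℕ) × (ℕ × ℕ)) :=
  ((Q ×ˢ Ico K (2 * K)) ×ˢ (Q ×ˢ Ico K (2 * K))).filter
    (fun z => b z.1.1 + (z.1.2 : ℤ) * z.1.1 = b z.2.1 + (z.2.2 : ℤ) * z.2.1)

theorem Dat.coin_le (h : Dat P M lam K H Q b φ d) :
    (coin K Q b).card ≤ ∑ j ∈ Q.image (fun p => p / H),
      ∑ z ∈ (Ico K (2 * K)) ×ˢ (Ico K (2 * K)), (blk H Q b j z.1 z.2).card := by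
  classical
  set J := Q.image (fun p => p / H) with hJ
  set I := Ico K (2 * K) with hI
  set U : Finset ((ℕ × (ℕ × ℕ)) × ℕ) := ((J ×ˢ (I ×ˢ I)) ×ˢ Q).filter
    (fun w => w.2 / H = w.1.1 ∧ ∃ q ∈ Q, b w.2 + (w.1.2.1 : ℤ) * w.2 = b q + (w.1.2.2 : ℤ) * q)
    with hU
  have h1 : (coin K Q b).card ≤ U.card := by
    apply card_le_card_of_injOn
      (fun z : (ℕ × ℕ) × (ℕ × ℕ) => ((z.1.1 / H, (z.1.2, z.2.2)), z.1.1))
    · rintro ⟨⟨p, k⟩, ⟨q, l⟩⟩ hz
      rw [mem_coe, coin, mem_filter, mem_product, mem_product, mem_product] at hz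
      obtain ⟨⟨⟨a1, a2⟩, a3, a4⟩, a5⟩ := hz
      rw [mem_coe, hU, mem_filter, mem_product, mem_product, mem_product]
      exact ⟨⟨⟨mem_image.2 ⟨p, a1, rfl⟩, a2, a4⟩, a1⟩, rfl, q, a3, a5⟩
    · rintro ⟨⟨p, k⟩, ⟨q, l⟩⟩ hz ⟨⟨p', k'⟩, ⟨q', l'⟩⟩ hz' he
      rw [mem_coe, coin, mem_filter, mem_product, mem_product, mem_product] at hz hz'
      obtain ⟨⟨⟨a1, a2⟩, a3, a4⟩, a5⟩ := hz
      obtain ⟨⟨⟨b1, b2⟩, b3, b4⟩, b5⟩ := hz'
      simp only [Prod.mk.injEq] at he a1 a2 a3 a4 a5 b1 b2 b3 b4 b5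
      obtain ⟨⟨_, e1, e2⟩, e3⟩ := he
      subst e1 e2 e3
      have hl : K ≤ l := (mem_Ico.1 a4).1
      have hq : q = q' := by
        rcases lt_trichotomy q q' with h3 | h3 | h3
        · have := h.mono hl a3 b3 h3
          rw [← a5, ← b5] at this
          exact absurd this (lt_irrefl _)
        · exact h3
        · have := h.mono hl b3 a3 h3
          rw [← a5, ← b5] at this
          exact absurd this (lt_irrefl _)
      rw [hq]
  refine h1.trans (le_of_eq ?_)
  rw [hU, card_filter, sum_product, sum_product]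
  refine sum_congr rfl fun j _ => sum_congr rfl fun z _ => ?_
  rw [blk, card_filter]

end Pool.Agent.Zk41.SN
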