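import Pool.Agent.Zk41.SN.B
import Pool.Agent.Zk98.NearC
import Pool.Agent.Zk99.CsI

/-!
Smooth choices of residue classes: the finite form of the lower bound.
-/

set_option autoImplicit false

open Finset

namespace Pool.Agent.Zk41.SN

variable {P M lam : ℝ} {K H : ℕ} {Q : Finset ℕ} {b : ℕ → ℤ} {φ d : ℝ → ℝ}

theorem Dat.blk_sum (h : Dat P M lam K H Q b φ d) (j : ℕ) :
    (∑ z ∈ (Ico K (2 * K)) ×ˢ (Ico K (2 * K)), ((blk H Q b j z.1 z.2).card : ℝ)) ≤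
      869 * M ^ 2 * (K : ℝ) ^ 2 * (1 + Real.log (3 * K)) ^ 3 := by
  classical
  have hM := h.hM
  have hK := h.hK
  have hK0 : 0 < K := by
    have : (0 : ℝ) < K := by linarith
    exact_mod_cast this
  have hK1 : (1 : ℝ) ≤ K := by exact_mod_cast hK0
  set I := Ico K (2 * K) with hI
  have hIc : ((I ×ˢ I).card : ℝ) = (K : ℝ) ^ 2 := by
    rw [card_product, hI, Nat.card_Ico, show 2 * K - K = K by omega]
    push_cast
    ring
  have h1 : ∀ z ∈ I ×ˢ I, ((blk H Q b j z.1 z.2).card : ℝ) ≤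
      1 + ∑ u ∈ Icc 1 H, ∑ v ∈ Icc 1 (3 * H),
      (if |((z.1 : ℝ) * u - (z.2 : ℝ) * v) - W P H d j u v| ≤ 108 * M ^ 2
        then (H : ℝ) / u else 0) := by
    intro z hz
    rw [mem_product, hI, mem_Ico, mem_Ico] at hz
    exact h.block hz.1.1 hz.1.2 hz.2.1
  have hD : (0 : ℝ) ≤ 108 * M ^ 2 := by positivity
  have h2 : ∀ u ∈ Icc 1 H, ∀ v ∈ Icc 1 (3 * H), (∑ z ∈ I ×ˢ I,
      (if |((z.1 : ℝ) * u - (z.2 : ℝ) * v) - W P H d j u v| ≤ 108 * M ^ 2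
        then (H : ℝ) / u else 0)) ≤
      (2 * (108 * M ^ 2) + 1) * (((H : ℝ) / u) * (K * ((Nat.gcd u v : ℕ) : ℝ) / v + 1)) := by
    intro u hu v hv
    rw [← sum_filter, sum_const, nsmul_eq_mul]
    have h3 := Pool.Agent.Zk98.near_count K u v (mem_Icc.1 hu).1 (mem_Icc.1 hv).1
      (W P H d j u v) (108 * M ^ 2) hD
    have h4 : (0 : ℝ) ≤ (H : ℝ) / u := by positivity
    calc _ ≤ ((2 * (108 * M ^ 2) + 1) * (K * ((Nat.gcd u v : ℕ) : ℝ) / v + 1)) * ((H : ℝ) / u) :=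
          mul_le_mul_of_nonneg_right h3 h4
      _ = _ := by ring
  have hH0 : 0 < H := h.hH1
  have hHR : (0 : ℝ) < H := by exact_mod_cast hH0
  have hH1 : (1 : ℝ) ≤ H := by exact_mod_cast hH0
  have hHK : (H : ℝ) ≤ K := by exact_mod_cast h.hHK
  have h5 : ∑ u ∈ Icc 1 H, ∑ v ∈ Icc 1 (3 * H),
      ((H : ℝ) / u) * (K * ((Nat.gcd u v : ℕ) : ℝ) / v + 1) ≤
      4 * (K : ℝ) ^ 2 * (1 + Real.log (3 * K)) ^ 3 := by
    have g1 := Pool.Agent.Zk99.uv_sum H hH0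
    have g2 : 1 ≤ (K : ℝ) / H := by rw [one_le_div hHR]; exact hHK
    have g3 : 0 ≤ Real.log (3 * H) := Real.log_nonneg (by linarith)
    have g4 : Real.log (3 * H) ≤ Real.log (3 * K) :=
      Real.log_le_log (by positivity) (by linarith)
    calc ∑ u ∈ Icc 1 H, ∑ v ∈ Icc 1 (3 * H),
          ((H : ℝ) / u) * (K * ((Nat.gcd u v : ℕ) : ℝ) / v + 1)
        ≤ ∑ u ∈ Icc 1 H, ∑ v ∈ Icc 1 (3 * H),
          ((K : ℝ) / H) * (((H : ℝ) / u) * (H * ((Nat.gcd u v : ℕ) : ℝ) / v + 1)) := by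
          refine sum_le_sum fun u _ => sum_le_sum fun v _ => ?_
          have g5 : (0 : ℝ) ≤ (H : ℝ) / u := by positivity
          calc ((H : ℝ) / u) * (K * ((Nat.gcd u v : ℕ) : ℝ) / v + 1)
              ≤ ((H : ℝ) / u) * (K * ((Nat.gcd u v : ℕ) : ℝ) / v + (K : ℝ) / H) := by gcongr
            _ = _ := by
                field_simp
      _ = ((K : ℝ) / H) * ∑ u ∈ Icc 1 H, ∑ v ∈ Icc 1 (3 * H),
          (((H : ℝ) / u) * (H * ((Nat.gcd u v : ℕ) : ℝ) / v + 1)) := by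
          rw [mul_sum]
          refine sum_congr rfl fun u _ => ?_
          rw [mul_sum]
      _ ≤ ((K : ℝ) / H) * (4 * (H : ℝ) ^ 2 * (1 + Real.log (3 * K)) ^ 3) := by
          refine mul_le_mul_of_nonneg_left (g1.trans ?_) (by positivity)
          gcongr
      _ = 4 * (K * H) * (1 + Real.log (3 * K)) ^ 3 := by
          field_simp
      _ ≤ 4 * (K : ℝ) ^ 2 * (1 + Real.log (3 * K)) ^ 3 := by
          have g6 : (K : ℝ) * H ≤ (K : ℝ) ^ 2 := by nlinarith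
          have g7 : 0 ≤ (1 + Real.log (3 * K)) ^ 3 := by
            have : 0 ≤ Real.log (3 * K) := g3.trans g4
            positivity
          gcongr
  set L : ℝ := 1 + Real.log (3 * K) with hL
  have hL1 : 1 ≤ L := by
    have : 0 ≤ Real.log (3 * K) := Real.log_nonneg (by linarith)
    linarith
  calc (∑ z ∈ I ×ˢ I, ((blk H Q b j z.1 z.2).card : ℝ))
      ≤ ∑ z ∈ I ×ˢ I, (1 + ∑ u ∈ Icc 1 H, ∑ v ∈ Icc 1 (3 * H),
        (if |((z.1 : ℝ) * u - (z.2 : ℝ) * v) - W P H d j u v| ≤ 108 * M ^ 2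
          then (H : ℝ) / u else 0)) := sum_le_sum h1
    _ = (K : ℝ) ^ 2 + ∑ u ∈ Icc 1 H, ∑ v ∈ Icc 1 (3 * H), ∑ z ∈ I ×ˢ I,
        (if |((z.1 : ℝ) * u - (z.2 : ℝ) * v) - W P H d j u v| ≤ 108 * M ^ 2
          then (H : ℝ) / u else 0) := by
        rw [sum_add_distrib, sum_const, nsmul_eq_mul, mul_one, hIc, sum_comm]
        congr 1
        refine sum_congr rfl fun u _ => ?_
        rw [sum_comm]
    _ ≤ (K : ℝ) ^ 2 + ∑ u ∈ Icc 1 H, ∑ v ∈ Icc 1 (3 * H),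
        (2 * (108 * M ^ 2) + 1) * (((H : ℝ) / u) * (K * ((Nat.gcd u v : ℕ) : ℝ) / v + 1)) := by
        gcongr with u hu v hv
        exact h2 u hu v hv
    _ = (K : ℝ) ^ 2 + (2 * (108 * M ^ 2) + 1) * ∑ u ∈ Icc 1 H, ∑ v ∈ Icc 1 (3 * H),
        ((H : ℝ) / u) * (K * ((Nat.gcd u v : ℕ) : ℝ) / v + 1) := by
        rw [mul_sum]
        congr 1
        refine sum_congr rfl fun u _ => ?_
        rw [mul_sum]
    _ ≤ (K : ℝ) ^ 2 + (2 * (108 * M ^ 2) + 1) * (4 * (K : ℝ) ^ 2 * L ^ 3) := by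
        gcongr
    _ ≤ 869 * M ^ 2 * (K : ℝ) ^ 2 * L ^ 3 := by
        have e1 : 1 ≤ L ^ 3 := one_le_pow₀ hL1
        have e2 : 1 ≤ M ^ 2 := one_le_pow₀ hM
        have e3 : (1 : ℝ) ≤ (K : ℝ) ^ 2 := one_le_pow₀ hK1
        have e4 : (K : ℝ) ^ 2 ≤ (K : ℝ) ^ 2 * L ^ 3 := le_mul_of_one_le_right (by positivity) e1
        have e5 : (K : ℝ) ^ 2 * L ^ 3 ≤ M ^ 2 * ((K : ℝ) ^ 2 * L ^ 3) :=
          le_mul_of_one_le_left (by positivity) e2
        nlinarith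

theorem Dat.coin_bound (h : Dat P M lam K H Q b φ d) :
    ((coin K Q b).card : ℝ) ≤ 2607 * (P / H) * (K : ℝ) ^ 2 * M ^ 2 * (1 + Real.log (3 * K)) ^ 3 := by
  classical
  have hM := h.hM
  have hK := h.hK
  have hKP := h.hKP
  have hK0 : 0 < K := by
    have : (0 : ℝ) < K := by linarith
    exact_mod_cast this
  have hKR : (0 : ℝ) < K := by exact_mod_cast hK0
  have hK1 : (1 : ℝ) ≤ K := by exact_mod_cast hK0
  have hP : 0 < P := by linarith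
  set J := Q.image (fun p => p / H) with hJ
  have hH0 : 0 < H := h.hH1
  have hHR : (0 : ℝ) < H := by exact_mod_cast hH0
  have hHK : (H : ℝ) ≤ K := by exact_mod_cast h.hHK
  have hL1 : 0 ≤ 1 + Real.log (3 * K) := by
    have : 0 ≤ Real.log (3 * K) := Real.log_nonneg (by linarith)
    linarith
  have hJc : (J.card : ℝ) ≤ 3 * P / H := by
    have h1 : J ⊆ Icc (⌊P / H⌋₊) (⌊2 * P / H⌋₊) := by
      intro j hj
      rw [hJ, mem_image] at hj
      obtain ⟨p, hp, rfl⟩ := hj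
      obtain ⟨a1, a2⟩ := h.hQ p hp
      rw [mem_Icc, ← Nat.floor_div_eq_div (K := ℝ)]
      constructor
      · exact Nat.floor_le_floor (by gcongr)
      · exact Nat.floor_le_floor (by gcongr)
    have h2 := card_le_card h1
    rw [Nat.card_Icc] at h2
    have h3 : (⌊P / H⌋₊ : ℝ) > P / H - 1 := Nat.sub_one_lt_floor _
    have h4 : (⌊2 * P / H⌋₊ : ℝ) ≤ 2 * P / H := Nat.floor_le (by positivity)
    have h5 : ⌊P / H⌋₊ ≤ ⌊2 * P / H⌋₊ := Nat.floor_le_floor (by gcongr; linarith)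
    have h6 : (J.card : ℝ) ≤ (⌊2 * P / H⌋₊ : ℝ) + 1 - ⌊P / H⌋₊ := by
      have : J.card + ⌊P / H⌋₊ ≤ ⌊2 * P / H⌋₊ + 1 := by omega
      have : (J.card : ℝ) + ⌊P / H⌋₊ ≤ ⌊2 * P / H⌋₊ + 1 := by exact_mod_cast this
      linarith
    have h7 : 1 ≤ P / H := by rw [one_le_div hHR]; linarith
    have h8 : 2 * P / H = 2 * (P / H) := by ring
    have h9 : 3 * P / H = 3 * (P / H) := by ring
    rw [h9]
    rw [h8] at h4
    rw [h8] at h6
    linarith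
  have h1 : ((coin K Q b).card : ℝ) ≤ ∑ j ∈ J,
      ∑ z ∈ (Ico K (2 * K)) ×ˢ (Ico K (2 * K)), ((blk H Q b j z.1 z.2).card : ℝ) := by
    exact_mod_cast h.coin_le
  refine h1.trans ?_
  calc _ ≤ ∑ j ∈ J, 869 * M ^ 2 * (K : ℝ) ^ 2 * (1 + Real.log (3 * K)) ^ 3 :=
        sum_le_sum fun j _ => h.blk_sum j
    _ = J.card * (869 * M ^ 2 * (K : ℝ) ^ 2 * (1 + Real.log (3 * K)) ^ 3) := by
        rw [sum_const, nsmul_eq_mul]
    _ ≤ (3 * P / H) * (869 * M ^ 2 * (K : ℝ) ^ 2 * (1 + Real.log (3 * K)) ^ 3) := by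
        gcongr
    _ = _ := by
        field_simp
        ring

/-- the finite form: the number of integers `b p + k p` -/
theorem Dat.main (h : Dat P M lam K H Q b φ d) :
    ((Q.card : ℝ) * K) ^ 2 ≤
      (((Q ×ˢ Ico K (2 * K)).image (fun z : ℕ × ℕ => b z.1 + (z.2 : ℤ) * z.1)).card : ℝ) *
        (2607 * (P / H) * (K : ℝ) ^ 2 * M ^ 2 * (1 + Real.log (3 * K)) ^ 3) := by
  classical
  have h1 := Pool.Agent.Zk99.cs_image (Q ×ˢ Ico K (2 * K))
    (fun z : ℕ × ℕ => b z.1 + (z.2 : ℤ) * z.1)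
  have h2 : ((Q ×ˢ Ico K (2 * K)).card : ℝ) = (Q.card : ℝ) * K := by
    rw [card_product, Nat.card_Ico, show 2 * K - K = K by omega]
    push_cast
    ring
  rw [h2] at h1
  refine h1.trans ?_
  have h3 := h.coin_bound
  unfold coin at h3
  exact mul_le_mul_of_nonneg_left h3 (by positivity)

end Pool.Agent.Zk41.SN
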